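import Mathlib

/-!
# MP_b60c25_lc: the conjecture `D(n) = n - 1` on shortest diamonds fails for `n = 4` and `n = 6`
-/

set_option autoImplicit false

namespace Pool.Agent.Results.MP_b60c25_lc.DiamondConjectureFails

/-- The global map of the range-2 cellular automaton with local rule `f`. -/
def G {n : ℕ} (f : Fin n → Fin n → Fin n) (c : ℤ → Fin n) : ℤ → Fin n := fun p => f (c p) (c (p + 1))

/-- The automaton has a diamond of length `l`: two different words of length `l + 2` with the same
first letter, the same last letter and the same image (so that the inner words of length `l` are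
different). -/
def HasDiamond {n : ℕ} (f : Fin n → Fin n → Fin n) (l : ℕ) : Prop :=
  ∃ w w' : Fin (l + 2) → Fin n, w 0 = w' 0 ∧ w (Fin.last (l + 1)) = w' (Fin.last (l + 1)) ∧
    (∀ i : Fin (l + 1), f (w i.castSucc) (w i.succ) = f (w' i.castSucc) (w' i.succ)) ∧ w ≠ w'

/-- The least length of a diamond. -/
noncomputable def delta {n : ℕ} (f : Fin n → Fin n → Fin n) : ℕ := sInf {l | HasDiamond f l}

/-- The maximum of `delta` over the non-surjective range-2 automata with `n` states. -/
noncomputable def D (n : ℕ) : ℕ :=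
  sSup {d | ∃ f : Fin n → Fin n → Fin n, ¬ Function.Surjective (G f) ∧ d = delta f}

section
variable {n : ℕ} (f : Fin n → Fin n → Fin n)

/-- the pairs which can follow a common letter -/
def startPairs : Finset (Fin n × Fin n) :=
  Finset.univ.filter fun x => x.1 ≠ x.2 ∧ ∃ p, f p x.1 = f p x.2

/-- the pairs which can follow a pair in a given set -/
def next (s : Finset (Fin n × Fin n)) : Finset (Fin n × Fin n) :=
  Finset.univ.filter fun x => x.1 ≠ x.2 ∧ ∃ y ∈ s, f y.1 x.1 = f y.2 x.2

/-- the pairs reached after `k + 1` steps -/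
def level : ℕ → Finset (Fin n × Fin n)
  | 0 => startPairs f
  | k + 1 => next f (level k)

/-- a pair in the set can be followed by a common letter -/
def Ends (s : Finset (Fin n × Fin n)) : Prop := ∃ x ∈ s, ∃ q, f x.1 q = f x.2 q

instance (s : Finset (Fin n × Fin n)) : Decidable (Ends f s) := by unfold Ends; infer_instance

variable {f}

theorem exists_level {l : ℕ} (h : HasDiamond f l) : ∃ k < l, Ends f (level f k) := by
  classical
  obtain ⟨w, w', h0, h1, h2, h3⟩ := h
  -- extend to functions on the natural numbers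
  let v : ℕ → Fin n := fun i => if hi : i < l + 2 then w ⟨i, hi⟩ else w 0
  let v' : ℕ → Fin n := fun i => if hi : i < l + 2 then w' ⟨i, hi⟩ else w 0
  have hv : ∀ i (hi : i < l + 2), v i = w ⟨i, hi⟩ := fun i hi => dif_pos hi
  have hv' : ∀ i (hi : i < l + 2), v' i = w' ⟨i, hi⟩ := fun i hi => dif_pos hi
  have e0 : v 0 = v' 0 := by
    rw [hv 0 (by omega), hv' 0 (by omega)]
    exact h0
  have e1 : v (l + 1) = v' (l + 1) := by
    rw [hv (l + 1) (by omega), hv' (l + 1) (by omega)]
    exact h1
  have e2 : ∀ i ≤ l, f (v i) (v (i + 1)) = f (v' i) (v' (i + 1)) := by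
    intro i hi
    rw [hv i (by omega), hv' i (by omega), hv (i + 1) (by omega), hv' (i + 1) (by omega)]
    exact h2 ⟨i, by omega⟩
  have e3 : ∃ i, i < l + 2 ∧ v i ≠ v' i := by
    by_contra hcon
    push Not at hcon
    refine h3 (funext fun i => ?_)
    have h4 := hcon i i.2
    rw [hv i i.2, hv' i i.2] at h4
    exact h4
  let a := Nat.find e3
  have ha := Nat.find_spec e3
  have hamin : ∀ i, i < a → v i = v' i := by
    intro i hi
    by_contra hne
    exact Nat.find_min e3 hi ⟨by have := hi.trans_le (show a ≤ l + 1 from by omega); omega, hne⟩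
  have ha0 : a ≠ 0 := by
    intro h
    apply ha.2
    change v a = v' a
    rw [h]
    exact e0
  have hal : a ≤ l := by
    by_contra hcon
    have h4 : a = l + 1 := by
      have : a < l + 2 := ha.1
      omega
    apply ha.2
    change v a = v' a
    rw [h4]
    exact e1
  have e4 : ∃ k, v (a + k + 1) = v' (a + k + 1) := ⟨l - a, by
    have : a + (l - a) + 1 = l + 1 := by omega
    rw [this]
    exact e1⟩
  let b := Nat.find e4
  have hb : v (a + b + 1) = v' (a + b + 1) := Nat.find_spec e4
  have hble : b ≤ l - a := Nat.find_min' e4 (by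
    have : a + (l - a) + 1 = l + 1 := by omega
    rw [this]
    exact e1)
  have hne : ∀ k ≤ b, v (a + k) ≠ v' (a + k) := by
    intro k hk
    rcases k with _ | k
    · exact ha.2
    · exact Nat.find_min e4 (show k < b by omega)
  have hlev : ∀ k ≤ b, (v (a + k), v' (a + k)) ∈ level f k := by
    intro k
    induction k with
    | zero =>
      intro _
      obtain ⟨c, hc⟩ := Nat.exists_eq_succ_of_ne_zero ha0
      have h5 := e2 c (by omega)
      have h6 := hamin c (by omega)
      simp only [level, startPairs, Finset.mem_filter, Finset.mem_univ, true_and]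
      refine ⟨hne 0 (by omega), v c, ?_⟩
      have h7 : c + 1 = a + 0 := by omega
      rw [h7] at h5
      rw [← h6] at h5
      exact h5
    | succ k ih =>
      intro hk
      simp only [level, next, Finset.mem_filter, Finset.mem_univ, true_and]
      exact ⟨hne (k + 1) hk, _, ih (by omega), e2 (a + k) (by omega)⟩
  refine ⟨b, by omega, _, hlev b le_rfl, v (a + b + 1), ?_⟩
  have h8 := e2 (a + b) (by omega)
  rw [← hb] at h8
  exact h8

theorem le_delta {m l : ℕ} (hl : HasDiamond f l) (h : ∀ k < m, ¬ Ends f (level f k)) :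
    m < delta f := by
  have h1 : HasDiamond f (delta f) := by
    have h2 : sInf {l | HasDiamond f l} ∈ {l | HasDiamond f l} := Nat.sInf_mem ⟨l, hl⟩
    exact h2
  obtain ⟨k, hk, hE⟩ := exists_level h1
  by_contra hcon
  exact h k (by omega) hE

/-- the letters which can be reached by preimages of a word -/
def reach (f : Fin n → Fin n → Fin n) : List (Fin n) → Finset (Fin n) → Finset (Fin n)
  | [], s => s
  | t :: u, s => reach f u (Finset.univ.filter fun x => ∃ y ∈ s, f y x = t)

theorem mem_reach (c : ℤ → Fin n) (u : List (Fin n)) (s : Finset (Fin n)) (p : ℤ) (hp : c p ∈ s)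
    (h : ∀ i (hi : i < u.length), G f c (p + i) = u[i]) : c (p + u.length) ∈ reach f u s := by
  induction u generalizing s p with
  | nil => simpa [reach] using hp
  | cons t u ih =>
    have h1 := ih (Finset.univ.filter fun x => ∃ y ∈ s, f y x = t) (p + 1) (by
      rw [Finset.mem_filter]
      refine ⟨Finset.mem_univ _, c p, hp, ?_⟩
      have h2 := h 0 (by simp)
      simpa [G] using h2) (by
      intro i hi
      have h2 := h (i + 1) (by simpa using hi)
      have h3 : p + ((i + 1 : ℕ) : ℤ) = p + 1 + (i : ℤ) := by push_cast; ring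
      rw [h3] at h2
      simpa using h2)
    have h4 : p + ((t :: u).length : ℤ) = p + 1 + (u.length : ℤ) := by
      rw [List.length_cons]
      push_cast
      ring
    rw [h4]
    exact h1

theorem not_surjective (u : List (Fin n)) (hu : u ≠ []) (h : reach f u Finset.univ = ∅) :
    ¬ Function.Surjective (G f) := by
  intro hs
  obtain ⟨t, ht⟩ : ∃ t : Fin n, True := by
    rcases u with _ | ⟨t, u⟩
    · exact absurd rfl hu
    · exact ⟨t, trivial⟩
  obtain ⟨c, hc⟩ := hs fun i => u.getD i.toNat t
  have h1 := mem_reach (f := f) c u Finset.univ 0 (Finset.mem_univ _) (by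
    intro i hi
    rw [hc]
    simp [hi])
  rw [h] at h1
  exact absurd h1 (Finset.notMem_empty _)

theorem le_D {n m : ℕ} (f : Fin n → Fin n → Fin n) (hf : ¬ Function.Surjective (G f)) {l : ℕ}
    (hl : HasDiamond f l) (h : ∀ k < m, ¬ Ends f (level f k)) : m < D n := by
  refine (le_delta hl h).trans_le (le_csSup ?_ ⟨f, hf, rfl⟩)
  refine (Set.Finite.bddAbove ?_)
  refine (Set.finite_range (fun f : Fin n → Fin n → Fin n => delta f)).subset ?_
  rintro d ⟨f, _, rfl⟩
  exact ⟨f, rfl⟩

end

/-- the 4-state rule -/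
def f4 : Fin 4 → Fin 4 → Fin 4 := ![![2, 0, 2, 3], ![2, 0, 3, 1], ![1, 3, 1, 0], ![3, 1, 0, 2]]

/-- the 6-state rule -/
def f6 : Fin 6 → Fin 6 → Fin 6 := ![![0, 4, 5, 1, 1, 0], ![1, 3, 2, 5, 0, 4], ![4, 2, 3, 1, 5, 0],
  ![2, 0, 1, 3, 3, 2], ![5, 1, 0, 4, 4, 5], ![3, 5, 4, 2, 2, 3]]

theorem diamond4 : HasDiamond f4 5 :=
  ⟨![0, 0, 1, 0, 2, 0, 0], ![0, 2, 3, 3, 3, 1, 0], by decide, by decide, by decide, by decide⟩

theorem levels4 : ∀ k < 4, ¬ Ends f4 (level f4 k) := by decide

theorem notSurj4 : ¬ Function.Surjective (G f4) := not_surjective [0, 2, 0, 2, 1] (by simp) (by decide)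

theorem diamond6 : HasDiamond f6 6 :=
  ⟨![0, 0, 1, 0, 0, 0, 0, 3], ![0, 5, 2, 3, 1, 4, 2, 3], by decide, by decide, by decide,
    by decide⟩

theorem levels6 : ∀ k < 5, ¬ Ends f6 (level f6 k) := by decide +kernel

theorem notSurj6 : ¬ Function.Surjective (G f6) :=
  not_surjective [0, 2, 0, 0, 0, 0, 0] (by simp) (by decide +kernel)

/-- **MP_b60c25_lc**: the conjecture that `D(n) = n - 1` for all `n ≥ 2` is false: `D(4) ≥ 5` and
`D(6) ≥ 6`. -/
theorem result : ¬ (∀ n : ℕ, 2 ≤ n → D n = n - 1) ∧ 5 ≤ D 4 ∧ 6 ≤ D 6 := by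
  have h4 : 5 ≤ D 4 := le_D f4 notSurj4 diamond4 levels4
  refine ⟨fun h => ?_, h4, le_D f6 notSurj6 diamond6 levels6⟩
  have h1 := h 4 (by norm_num)
  omega

end Pool.Agent.Results.MP_b60c25_lc.DiamondConjectureFails
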